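import Mathlib

/-!
# MP_5c9c6a_an: gradient injectivity below the smallest convexity level

On `ℝ²` the polynomial `f = 9 s⁴ - 100 s³ + 324 s² + 96 s - 144 x²`, `s = x² + y²`, satisfies the
standing hypotheses (H), but its two local minima lie in the same component of `R(f)`.
-/

namespace Pool.Agent.Results.MP_5c9c6a_an.GradInj

open Set Filter Topology
open scoped RealInnerProductSpace

/-- `ℝⁿ` with its Euclidean structure -/
abbrev E (n : ℕ) := EuclideanSpace ℝ (Fin n)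

variable {n : ℕ}

/-- truncation of `f` at level `q` -/
def trunc (q : ℝ) (f : E n → ℝ) : E n → ℝ := fun x => max q (f x)

/-- `q ≥ inf f` (in the extended reals) and `T_r(f)` is convex for every `r ≥ q` -/
def GoodLevel (f : E n → ℝ) (q : ℝ) : Prop :=
  (⨅ x, (f x : EReal)) ≤ (q : EReal) ∧ ∀ r ≥ q, ConvexOn ℝ univ (trunc r f)

/-- `f` is truncated convex -/
def TruncatedConvex (f : E n → ℝ) : Prop := ∃ q : ℝ, GoodLevel f q

/-- the smallest convexity level, as an extended real -/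
noncomputable def scl (f : E n → ℝ) : EReal :=
  sInf ((fun q : ℝ => (q : EReal)) '' {q : ℝ | GoodLevel f q})

/-- the Hessian bilinear form -/
noncomputable def hess (f : E n → ℝ) (x v w : E n) : ℝ := fderiv ℝ (fderiv ℝ f) x v w

/-- the set of points where the Hessian is positive definite -/
def HessPos (f : E n → ℝ) : Set (E n) := {x | ∀ v, v ≠ 0 → 0 < hess f x v v}

/-- the critical set -/
def Crit (f : E n → ℝ) : Set (E n) := {x | gradient f x = 0}

/-- `f` is Morse -/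
def IsMorse (f : E n → ℝ) : Prop :=
  ∀ x ∈ Crit f, ∀ v, (∀ w, hess f x v w = 0) → v = 0

/-- the standing hypotheses (H), with `scl(f) = c` -/
structure Hyp (f : E n → ℝ) (c : ℝ) : Prop where
  contDiff : ContDiff ℝ 2 f
  not_convex : ¬ ConvexOn ℝ univ f
  truncatedConvex : TruncatedConvex f
  morse : IsMorse f
  crit_bdd : Bornology.IsBounded (Crit f)
  hess_bdd : Bornology.IsBounded (HessPos f)ᶜ
  scl_eq : scl f = (c : EReal)
  scl_mem : c ∈ range f
  scl_regular : ∀ x, f x = c → gradient f x ≠ 0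
  superlevel : {x | c < f x} ⊆ HessPos f

/-- the region `R(f) = Hess⁺(f) ∖ f⁻¹(c, +∞)`, `c = scl(f)` -/
def R (f : E n → ℝ) (c : ℝ) : Set (E n) := HessPos f \ {x | c < f x}

/-! ### a general criterion for convexity of truncations -/

lemma trunc_convex_of_hessPos {f : E n → ℝ} (hf : ContDiff ℝ 2 f) {r : ℝ}
    (h : {x | r < f x} ⊆ HessPos f) : ConvexOn ℝ univ (trunc r f) := by
  refine ⟨convex_univ, fun x _ y _ a b ha hb hab => ?_⟩
  set A := trunc r f x with hA
  set B := trunc r f y with hB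
  have hAr : r ≤ A := le_max_left _ _
  have hBr : r ≤ B := le_max_left _ _
  have hfA : f x ≤ A := le_max_right _ _
  have hfB : f y ≤ B := le_max_right _ _
  simp only [smul_eq_mul]
  set v := y - x with hv
  set γ : ℝ → E n := fun t => x + t • v with hγ
  set φ : ℝ → ℝ := fun t => f (γ t) with hφ
  set u : ℝ → ℝ := fun t => φ t - ((1 - t) * A + t * B) with hu
  have hγd : ∀ t, HasDerivAt γ v t := by
    intro t
    have := ((hasDerivAt_id' t).smul_const v).const_add x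
    exact this.congr_deriv (one_smul _ _)
  have hfd : Differentiable ℝ f := hf.differentiable (by norm_num)
  have hfd2 : Differentiable ℝ (fderiv ℝ f) :=
    (hf.fderiv_right (m := 1) (by norm_num)).differentiable (by norm_num)
  have hφd : ∀ t, HasDerivAt φ (fderiv ℝ f (γ t) v) t := by
    intro t
    exact (hfd (γ t)).hasFDerivAt.comp_hasDerivAt t (hγd t)
  have hud : ∀ t, HasDerivAt u (fderiv ℝ f (γ t) v - (B - A)) t := by
    intro t
    have h1 : HasDerivAt (fun t : ℝ => (1 - t) * A + t * B) (B - A) t := by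
      have h2 := (((hasDerivAt_id' t).const_sub 1).mul_const A).fun_add
        ((hasDerivAt_id' t).mul_const B)
      exact h2.congr_deriv (by ring)
    exact (hφd t).fun_sub h1
  have hud2 : ∀ t, HasDerivAt (fun t => fderiv ℝ f (γ t) v - (B - A)) (hess f (γ t) v v) t := by
    intro t
    have h1 : HasDerivAt (fun t => fderiv ℝ f (γ t)) (fderiv ℝ (fderiv ℝ f) (γ t) v) t :=
      (hfd2 (γ t)).hasFDerivAt.comp_hasDerivAt t (hγd t)
    have h2 := h1.clm_apply (hasDerivAt_const t v)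
    have h3 := h2.sub_const (B - A)
    exact h3.congr_deriv (by simp [hess])
  have key : ∀ t ∈ Icc (0:ℝ) 1, u t ≤ 0 := by
    by_contra hcon
    push Not at hcon
    obtain ⟨t₁, ht₁, hpos⟩ := hcon
    have hucont : ContinuousOn u (Icc 0 1) := fun t _ => (hud t).continuousAt.continuousWithinAt
    obtain ⟨t₀, ht₀, hmax⟩ := isCompact_Icc.exists_isMaxOn ⟨t₁, ht₁⟩ hucont
    have hpos0 : 0 < u t₀ := hpos.trans_le (hmax ht₁)
    have hu0 : u 0 ≤ 0 := by simp only [hu, hφ, hγ]; simp; exact hfA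
    have hu1 : u 1 ≤ 0 := by simp only [hu, hφ, hγ]; simp [hv]; exact hfB
    have h0 : t₀ ≠ 0 := by rintro rfl; linarith
    have h1 : t₀ ≠ 1 := by rintro rfl; linarith
    have hIoo : t₀ ∈ Ioo (0:ℝ) 1 :=
      ⟨lt_of_le_of_ne ht₀.1 h0.symm, lt_of_le_of_ne ht₀.2 h1⟩
    have hnhds : Icc (0:ℝ) 1 ∈ 𝓝 t₀ := Icc_mem_nhds hIoo.1 hIoo.2
    have hloc : IsLocalMax u t₀ := hmax.isLocalMax hnhds
    have hL : r ≤ (1 - t₀) * A + t₀ * B := by
      have e1 := mul_le_mul_of_nonneg_left hAr (sub_nonneg.mpr ht₀.2)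
      have e2 := mul_le_mul_of_nonneg_left hBr ht₀.1
      linarith
    have hfr : r < f (γ t₀) := by
      have : 0 < φ t₀ - ((1 - t₀) * A + t₀ * B) := hpos0
      have h2 : φ t₀ = f (γ t₀) := rfl
      linarith
    have hv0 : v ≠ 0 := by
      intro hv0
      have h3 : γ t₀ = x := by simp [hγ, hv0]
      have h4 : y = x := by rw [hv] at hv0; exact sub_eq_zero.mp hv0
      have h5 : B = A := by rw [hA, hB, h4]
      have h6 : 0 < φ t₀ - ((1 - t₀) * A + t₀ * B) := hpos0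
      have h7 : φ t₀ = f x := by simp only [hφ, h3]
      rw [h5, h7] at h6
      linarith
    have hH := h hfr v hv0
    have hder : deriv u = fun t => fderiv ℝ f (γ t) v - (B - A) := by
      ext t; exact (hud t).deriv
    have hdd : deriv (deriv u) t₀ = hess f (γ t₀) v v := by
      rw [hder]; exact (hud2 t₀).deriv
    have hmin : IsLocalMin u t₀ :=
      isLocalMin_of_deriv_deriv_pos (by rw [hdd]; exact hH) hloc.deriv_eq_zero
        (hud t₀).continuousAt
    have hconst : u =ᶠ[𝓝 t₀] fun _ => u t₀ := by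
      filter_upwards [hloc, hmin] with t h1 h2
      exact le_antisymm h1 h2
    have hd0 : deriv u =ᶠ[𝓝 t₀] fun _ => 0 := by
      have := hconst.deriv
      filter_upwards [this] with t ht
      rw [ht]; simp
    have : deriv (deriv u) t₀ = 0 := by
      rw [hd0.deriv_eq]; simp
    linarith
  have hb1 : b ≤ 1 := by linarith
  have hkb := key b ⟨hb, hb1⟩
  have hγb : γ b = a • x + b • y := by
    simp only [hγ, hv]
    have : a = 1 - b := by linarith
    rw [this, sub_smul, one_smul, smul_sub]; abel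
  have hfinal : f (a • x + b • y) ≤ a * A + b * B := by
    have h1 : φ b - ((1 - b) * A + b * B) ≤ 0 := hkb
    have h2 : φ b = f (a • x + b • y) := by simp only [hφ, hγb]
    have h3 : a = 1 - b := by linarith
    rw [h2] at h1
    rw [h3] at h1 ⊢
    linarith
  refine max_le ?_ hfinal
  have e1 := mul_le_mul_of_nonneg_left hAr ha
  have e2 := mul_le_mul_of_nonneg_left hBr hb
  have e3 : r = a * r + b * r := by rw [← add_mul, hab, one_mul]
  linarith

/-! ### the example -/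

/-- `G` as a function of `s = |x|²` -/
def G (s : ℝ) : ℝ := 9 * s ^ 4 - 100 * s ^ 3 + 324 * s ^ 2 + 96 * s

/-- `Q = G'` -/
def Q (s : ℝ) : ℝ := 36 * s ^ 3 - 300 * s ^ 2 + 648 * s + 96

/-- `Q'` -/
def Q' (s : ℝ) : ℝ := 108 * s ^ 2 - 600 * s + 648

/-- the example -/
noncomputable def ex (x : E 2) : ℝ := G (‖x‖ ^ 2) - 144 * (x 0) ^ 2

lemma nsq (x : E 2) : ‖x‖ ^ 2 = (x 0) ^ 2 + (x 1) ^ 2 := by
  rw [EuclideanSpace.real_norm_sq_eq, Fin.sum_univ_two]

lemma inn (x v : E 2) : ⟪x, v⟫ = x 0 * v 0 + x 1 * v 1 := by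
  rw [PiLp.inner_apply, Fin.sum_univ_two]
  simp [mul_comm]

lemma G_hasDeriv (s : ℝ) : HasDerivAt G (Q s) s := by
  have := ((((hasDerivAt_pow 4 s).const_mul 9).fun_sub ((hasDerivAt_pow 3 s).const_mul 100)).fun_add
    ((hasDerivAt_pow 2 s).const_mul 324)).fun_add ((hasDerivAt_id' s).const_mul 96)
  exact this.congr_deriv (by unfold Q; norm_num; ring)

lemma Q_hasDeriv (s : ℝ) : HasDerivAt Q (Q' s) s := by
  have := ((((hasDerivAt_pow 3 s).const_mul 36).fun_sub ((hasDerivAt_pow 2 s).const_mul 300)).fun_add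
    ((hasDerivAt_id' s).const_mul 648)).add_const 96
  exact this.congr_deriv (by unfold Q'; norm_num; ring)

lemma ex_fderiv (x : E 2) :
    HasFDerivAt ex ((2 * Q (‖x‖ ^ 2)) • innerSL ℝ x
      - (288 * x 0) • (EuclideanSpace.proj (𝕜 := ℝ) (0 : Fin 2) : E 2 →L[ℝ] ℝ)) x := by
  have h1 : HasFDerivAt (fun x : E 2 => ‖x‖ ^ 2) (2 • innerSL ℝ x) x :=
    (hasStrictFDerivAt_norm_sq x).hasFDerivAt
  have h3 := (G_hasDeriv (‖x‖ ^ 2)).comp_hasFDerivAt x h1
  have h5 : HasFDerivAt (fun x : E 2 => x 0) (EuclideanSpace.proj (𝕜 := ℝ) (0 : Fin 2)) x :=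
    (EuclideanSpace.proj (𝕜 := ℝ) (0 : Fin 2)).hasFDerivAt
  have h6 : HasFDerivAt (fun x : E 2 => 144 * (x 0) ^ 2)
      ((288 * x 0) • (EuclideanSpace.proj (𝕜 := ℝ) (0 : Fin 2) : E 2 →L[ℝ] ℝ)) x := by
    have h7 : HasDerivAt (fun t : ℝ => 144 * t ^ 2) (288 * x 0) (x 0) := by
      have := (hasDerivAt_pow 2 (x 0)).const_mul 144
      exact this.congr_deriv (by norm_num; ring)
    exact HasDerivAt.comp_hasFDerivAt (f := fun x : E 2 => x 0) x h7 h5
  refine (h3.fun_sub h6).congr_fderiv ?_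
  ext v
  simp only [smul_apply, smul_eq_mul, nsmul_eq_mul, sub_apply]
  push_cast
  ring

lemma ex_gradient (x : E 2) :
    gradient ex x = (2 * Q (‖x‖ ^ 2)) • x - (288 * x 0) • EuclideanSpace.single (0 : Fin 2) 1 := by
  apply HasGradientAt.gradient
  rw [hasGradientAt_iff_hasFDerivAt]
  refine (ex_fderiv x).congr_fderiv ?_
  ext v
  simp [inner_sub_left, inner_smul_left, EuclideanSpace.inner_single_left]

lemma ex_contDiff : ContDiff ℝ 2 ex := by
  have h : ContDiff ℝ 2 (fun x : E 2 => ‖x‖ ^ 2) := contDiff_norm_sq ℝ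
  have hG : ContDiff ℝ 2 G := by unfold G; fun_prop
  have h0 : ContDiff ℝ 2 (fun x : E 2 => x 0) :=
    (EuclideanSpace.proj (𝕜 := ℝ) (0 : Fin 2)).contDiff
  exact (hG.comp h).sub (contDiff_const.mul (h0.pow 2))

lemma ex_hess (x v w : E 2) :
    hess ex x v w = 2 * Q (‖x‖ ^ 2) * ⟪v, w⟫
      + 4 * Q' (‖x‖ ^ 2) * ⟪x, v⟫ * ⟪x, w⟫ - 288 * v 0 * w 0 := by
  have hd : DifferentiableAt ℝ (fderiv ℝ ex) x := by
    have : ContDiff ℝ 1 (fderiv ℝ ex) := ex_contDiff.fderiv_right (by norm_num)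
    exact (this.differentiable (by norm_num)).differentiableAt
  have h1 : HasFDerivAt (fun y => fderiv ℝ ex y w) ((fderiv ℝ (fderiv ℝ ex) x).flip w) x := by
    have := hd.hasFDerivAt.clm_apply (hasFDerivAt_const w x)
    simpa using this
  have h2 : (fun y => fderiv ℝ ex y w)
      = fun y => 2 * Q (‖y‖ ^ 2) * ⟪y, w⟫ - 288 * y 0 * w 0 := by
    ext y
    rw [(ex_fderiv y).fderiv]
    simp
  rw [h2] at h1
  have h3 : HasFDerivAt (fun x : E 2 => ‖x‖ ^ 2) (2 • innerSL ℝ x) x :=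
    (hasStrictFDerivAt_norm_sq x).hasFDerivAt
  have h5 := ((Q_hasDeriv (‖x‖ ^ 2)).const_mul 2).comp_hasFDerivAt x h3
  have h6 : HasFDerivAt (fun y : E 2 => ⟪y, w⟫) (innerSL ℝ w) x := by
    have := (innerSL ℝ w).hasFDerivAt (x := x)
    have e : (fun y : E 2 => ⟪y, w⟫) = fun y => innerSL ℝ w y := by
      ext y; simp [real_inner_comm]
    rw [e]; exact this
  have h7 := h5.mul h6
  have h8 : HasFDerivAt (fun y : E 2 => 288 * y 0 * w 0)
      ((288 * w 0) • (EuclideanSpace.proj (𝕜 := ℝ) (0 : Fin 2) : E 2 →L[ℝ] ℝ)) x := by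
    have h9 : HasFDerivAt (fun x : E 2 => x 0) (EuclideanSpace.proj (𝕜 := ℝ) (0 : Fin 2)) x :=
      (EuclideanSpace.proj (𝕜 := ℝ) (0 : Fin 2)).hasFDerivAt
    have := h9.const_mul (288 * w 0)
    have e : (fun y : E 2 => 288 * y 0 * w 0) = fun y => 288 * w 0 * y 0 := by
      ext y; ring
    rw [e]; exact this
  have h10 := h1.unique (h7.fun_sub h8)
  have h11 := congrArg (fun L : (E 2) →L[ℝ] ℝ => L v) h10
  simp only [ContinuousLinearMap.flip_apply, Function.comp, add_apply, sub_apply,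
    smul_apply, innerSL_apply_apply, smul_eq_mul, nsmul_eq_mul] at h11
  have hp : (EuclideanSpace.proj (𝕜 := ℝ) (0 : Fin 2)) v = v 0 := rfl
  unfold hess
  rw [h11, real_inner_comm w v, hp]
  push_cast
  ring

lemma hess_self (x v : E 2) :
    hess ex x v v = 2 * (Q (‖x‖ ^ 2) - 144) * (v 0) ^ 2 + 2 * Q (‖x‖ ^ 2) * (v 1) ^ 2
      + 4 * Q' (‖x‖ ^ 2) * (x 0 * v 0 + x 1 * v 1) ^ 2 := by
  rw [ex_hess, inn, inn]; ring

lemma ne_zero_iff (v : E 2) : v ≠ 0 ↔ v 0 ≠ 0 ∨ v 1 ≠ 0 := by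
  constructor
  · intro h
    by_contra hcon
    push Not at hcon
    apply h
    ext i
    fin_cases i
    · exact hcon.1
    · exact hcon.2
  · rintro h rfl
    simp at h

lemma Q_pos {s : ℝ} (hs : 0 ≤ s) : 0 < Q s := by
  unfold Q
  have : 0 < 36 * s ^ 2 - 300 * s + 648 := by nlinarith [sq_nonneg (s - 25 / 6)]
  nlinarith [mul_nonneg hs this.le]

lemma pos_of {x : E 2} (h1 : 144 ≤ Q (‖x‖ ^ 2)) (h2 : 0 < Q' (‖x‖ ^ 2))
    (h3 : x 0 ≠ 0 ∨ 144 < Q (‖x‖ ^ 2)) : x ∈ HessPos ex := by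
  intro v hv
  rw [hess_self]
  have hQ : 0 < Q (‖x‖ ^ 2) := Q_pos (by positivity)
  rcases (ne_zero_iff v).mp hv with hv0 | hv1
  · by_cases hv1 : v 1 = 0
    · rw [hv1]
      have hv2 : 0 < (v 0) ^ 2 := by positivity
      rcases h3 with h3 | h3
      · have h4 : 0 < (x 0 * v 0 + x 1 * 0) ^ 2 := by
          have : x 0 * v 0 + x 1 * 0 ≠ 0 := by simp [h3, hv0]
          positivity
        have h5 : 0 < 4 * Q' (‖x‖ ^ 2) * (x 0 * v 0 + x 1 * 0) ^ 2 := by positivity
        have h6 : 0 ≤ 2 * (Q (‖x‖ ^ 2) - 144) * (v 0) ^ 2 := by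
          apply mul_nonneg _ hv2.le; linarith
        nlinarith
      · have h5 : 0 ≤ 4 * Q' (‖x‖ ^ 2) * (x 0 * v 0 + x 1 * 0) ^ 2 := by positivity
        have h6 : 0 < 2 * (Q (‖x‖ ^ 2) - 144) * (v 0) ^ 2 := by
          apply mul_pos _ hv2; linarith
        nlinarith
    · have h4 : 0 < 2 * Q (‖x‖ ^ 2) * (v 1) ^ 2 := by positivity
      have h5 : 0 ≤ 4 * Q' (‖x‖ ^ 2) * (x 0 * v 0 + x 1 * v 1) ^ 2 := by positivity
      have h6 : 0 ≤ 2 * (Q (‖x‖ ^ 2) - 144) * (v 0) ^ 2 := by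
        apply mul_nonneg _ (sq_nonneg _); linarith
      linarith
  · have h4 : 0 < 2 * Q (‖x‖ ^ 2) * (v 1) ^ 2 := by positivity
    have h5 : 0 ≤ 4 * Q' (‖x‖ ^ 2) * (x 0 * v 0 + x 1 * v 1) ^ 2 := by positivity
    have h6 : 0 ≤ 2 * (Q (‖x‖ ^ 2) - 144) * (v 0) ^ 2 := by
      apply mul_nonneg _ (sq_nonneg _); linarith
    linarith

lemma pos_large {x : E 2} (hx : 41 / 10 ≤ ‖x‖ ^ 2) : x ∈ HessPos ex := by
  have h1 : 144 < Q (‖x‖ ^ 2) := by
    set s := ‖x‖ ^ 2
    unfold Q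
    have hu : 0 ≤ s - 4 := by linarith
    have e : 36 * s ^ 3 - 300 * s ^ 2 + 648 * s + 96
        = 192 - 24 * (s - 4) + 132 * (s - 4) ^ 2 + 36 * (s - 4) ^ 3 := by ring
    rw [e]
    have : 0 ≤ 36 * (s - 4) ^ 3 := by positivity
    nlinarith [sq_nonneg ((s - 4) - 1 / 11)]
  have h2 : 0 < Q' (‖x‖ ^ 2) := by
    set s := ‖x‖ ^ 2
    unfold Q'
    nlinarith
  exact pos_of h1.le h2 (Or.inr h1)

lemma G_le {s : ℝ} (h0 : 0 ≤ s) (h4 : s ≤ 4) : G s ≤ 1472 - 192 * (4 - s) := by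
  unfold G
  have e : 1472 - 192 * (4 - s) - (9 * s ^ 4 - 100 * s ^ 3 + 324 * s ^ 2 + 96 * s)
      = (4 - s) * ((4 - s) * (44 + 28 * s - 9 * s ^ 2)) := by ring
  have h1 : 0 ≤ 44 + 28 * s - 9 * s ^ 2 := by nlinarith
  have h2 : 0 ≤ 4 - s := by linarith
  have := mul_nonneg h2 (mul_nonneg h2 h1)
  linarith

lemma superlevel {x : E 2} (hx : 1472 < ex x) : x ∈ HessPos ex := by
  by_cases h41 : 41 / 10 ≤ ‖x‖ ^ 2
  · exact pos_large h41
  push Not at h41
  have hs0 : 0 ≤ ‖x‖ ^ 2 := by positivity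
  have hx' : 1472 < G (‖x‖ ^ 2) - 144 * (x 0) ^ 2 := hx
  have hs4 : 4 < ‖x‖ ^ 2 := by
    by_contra h
    push Not at h
    have := G_le hs0 h
    nlinarith [sq_nonneg (x 0)]
  intro v hv
  rw [hess_self]
  have hx1 : (x 1) ^ 2 = ‖x‖ ^ 2 - (x 0) ^ 2 := by rw [nsq]; ring
  set s := ‖x‖ ^ 2 with hs
  set u := s - 4 with hu
  have hu0 : 0 < u := by linarith
  have hu1 : u < 1 / 10 := by linarith
  have hGu : G s = 1472 + 192 * u - 12 * u ^ 2 + 44 * u ^ 3 + 9 * u ^ 4 := by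
    have : s = u + 4 := by rw [hu]; ring
    rw [this]; unfold G; ring
  have hQu : Q s = 192 - 24 * u + 132 * u ^ 2 + 36 * u ^ 3 := by
    have : s = u + 4 := by rw [hu]; ring
    rw [this]; unfold Q; ring
  have hQ'u : Q' s = -24 + 264 * u + 108 * u ^ 2 := by
    have : s = u + 4 := by rw [hu]; ring
    rw [this]; unfold Q'; ring
  have hQ1 : 189 < Q s := by rw [hQu]; nlinarith [pow_pos hu0 2, pow_pos hu0 3]
  have hQ'1 : -24 < Q' s := by rw [hQ'u]; nlinarith [pow_pos hu0 2]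
  have hx0 : 144 * (x 0) ^ 2 < 192 * u := by
    have : -12 * u ^ 2 + 44 * u ^ 3 + 9 * u ^ 4 ≤ 0 := by
      have e : -12 * u ^ 2 + 44 * u ^ 3 + 9 * u ^ 4 = u ^ 2 * (-12 + 44 * u + 9 * u ^ 2) := by ring
      rw [e]
      apply mul_nonpos_of_nonneg_of_nonpos (by positivity)
      nlinarith
    linarith
  -- the quadratic form `A a² + 2 B a b + C b²`
  set a := v 0 with ha
  set b := v 1 with hb
  set A := 2 * (Q s - 144) + 4 * Q' s * (x 0) ^ 2 with hA
  set B := 4 * Q' s * (x 0 * x 1) with hB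
  set C := 2 * Q s + 4 * Q' s * (x 1) ^ 2 with hC
  have hform : 2 * (Q s - 144) * a ^ 2 + 2 * Q s * b ^ 2 + 4 * Q' s * (x 0 * a + x 1 * b) ^ 2
      = A * a ^ 2 + 2 * B * (a * b) + C * b ^ 2 := by rw [hA, hB, hC]; ring
  rw [hform]
  have hx00 : 0 ≤ (x 0) ^ 2 := sq_nonneg _
  have hApos : 0 < A := by
    rw [hA]
    have : -96 * (x 0) ^ 2 ≤ 4 * Q' s * (x 0) ^ 2 :=
      mul_le_mul_of_nonneg_right (by linarith) hx00
    nlinarith
  have hdet : A * C - B ^ 2 = 4 * ((Q s - 144) * (Q s + 2 * s * Q' s)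
      + 288 * Q' s * (x 0) ^ 2) := by
    have : B ^ 2 = 16 * (Q' s) ^ 2 * (x 0) ^ 2 * (x 1) ^ 2 := by rw [hB]; ring
    rw [this, hA, hC, hx1]; ring
  have hP : Q s + 2 * s * Q' s = 12 * (s - 2) * u * (21 * s + 1) := by
    rw [hu]; unfold Q Q'; ring
  have hdetpos : 0 < A * C - B ^ 2 := by
    rw [hdet, hP]
    have h1 : 2 * 85 * 12 * u ≤ 12 * (s - 2) * u * (21 * s + 1) := by
      have : 2 * 85 ≤ (s - 2) * (21 * s + 1) := by nlinarith
      nlinarith [mul_le_mul_of_nonneg_left this hu0.le]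
    have h2 : 45 * (2 * 85 * 12 * u) ≤ (Q s - 144) * (12 * (s - 2) * u * (21 * s + 1)) := by
      apply mul_le_mul (by linarith) h1 (by positivity) (by linarith)
    have h3 : -(288 * 24) * (x 0) ^ 2 ≤ 288 * Q' s * (x 0) ^ 2 :=
      mul_le_mul_of_nonneg_right (by linarith) hx00
    nlinarith
  have h4 : A * (A * a ^ 2 + 2 * B * (a * b) + C * b ^ 2)
      = (A * a + B * b) ^ 2 + (A * C - B ^ 2) * b ^ 2 := by ring
  have h5 : 0 < A * (A * a ^ 2 + 2 * B * (a * b) + C * b ^ 2) := by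
    rw [h4]
    by_cases hb0 : b = 0
    · have ha0 : a ≠ 0 := by
        rcases (ne_zero_iff v).mp hv with h | h
        · exact h
        · exact absurd hb0 h
      rw [hb0]
      have : 0 < (A * a) ^ 2 := by positivity
      nlinarith
    · have : 0 < (A * C - B ^ 2) * b ^ 2 := by positivity
      nlinarith [sq_nonneg (A * a + B * b)]
  exact pos_of_mul_pos_right h5 hApos.le

lemma ex_axis (y : ℝ) : ex (y • EuclideanSpace.single (1 : Fin 2) (1 : ℝ)) = G (y ^ 2) := by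
  unfold ex
  rw [nsq]
  simp

lemma trunc_not_convex {r : ℝ} (hr : r < 1472) : ¬ ConvexOn ℝ univ (trunc r ex) := by
  intro hc
  set e : E 2 := EuclideanSpace.single (1 : Fin 2) (1 : ℝ) with he
  have hval : ∀ ρ : ℝ, trunc r ex (ρ • e) = max r (G (ρ ^ 2)) := by
    intro ρ
    simp only [trunc, he, ex_axis]
  have hGc : Continuous G := by unfold G; fun_prop
  have hG4 : G (2 ^ 2) = 1472 := by unfold G; norm_num
  have hcont : Tendsto (fun δ : ℝ => G ((2 - 2 * δ) ^ 2)) (𝓝[>] 0) (𝓝 (G ((2 - 2 * 0) ^ 2))) := by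
    have : Continuous fun δ : ℝ => G ((2 - 2 * δ) ^ 2) := hGc.comp (by fun_prop)
    exact (this.tendsto 0).mono_left nhdsWithin_le_nhds
  have hev : ∀ᶠ δ in 𝓝[>] (0:ℝ), r < G ((2 - 2 * δ) ^ 2) := by
    apply hcont.eventually_const_lt
    rw [mul_zero, sub_zero, hG4]; exact hr
  have hev2 : ∀ᶠ δ in 𝓝[>] (0:ℝ), δ < 1 / 10 :=
    (eventually_lt_nhds (by norm_num)).filter_mono nhdsWithin_le_nhds
  obtain ⟨δ, ⟨h1, h2⟩, h3⟩ := ((hev.and hev2).and self_mem_nhdsWithin).exists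
  have hδ : 0 < δ := h3
  have hmid := hc.2 (mem_univ ((2 - 2 * δ) • e)) (mem_univ ((2:ℝ) • e))
    (show (0:ℝ) ≤ 1 / 2 by norm_num) (show (0:ℝ) ≤ 1 / 2 by norm_num) (by norm_num)
  have e1 : (1 / 2 : ℝ) • (2 - 2 * δ) • e + (1 / 2 : ℝ) • (2:ℝ) • e = (2 - δ) • e := by
    rw [smul_smul, smul_smul, ← add_smul]; congr 1; ring
  rw [e1, hval _, hval _, hval _, max_eq_right h1.le, hG4, max_eq_right hr.le] at hmid
  have h4 : G ((2 - δ) ^ 2) ≤ max r (G ((2 - δ) ^ 2)) := le_max_right _ _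
  simp only [smul_eq_mul] at hmid
  have h5 : 2 * G ((2 - δ) ^ 2) - (G ((2 - 2 * δ) ^ 2) + 1472)
      = δ ^ 3 * (16320 - 61656 * δ + 84960 * δ ^ 2 - 56296 * δ ^ 3 + 18144 * δ ^ 4
        - 2286 * δ ^ 5) := by
    unfold G; ring
  have h6 : 0 < 16320 - 61656 * δ + 84960 * δ ^ 2 - 56296 * δ ^ 3 + 18144 * δ ^ 4
        - 2286 * δ ^ 5 := by
    have p2 : 0 < δ ^ 2 := by positivity
    have p4 : 0 < δ ^ 4 := by positivity
    have q3 : 56296 * δ ^ 3 ≤ 84960 * δ ^ 2 := by nlinarith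
    have q5 : 2286 * δ ^ 5 ≤ 18144 * δ ^ 4 := by nlinarith
    nlinarith
  have h7 := mul_pos (pow_pos hδ 3) h6
  linarith

lemma good_iff (q : ℝ) : GoodLevel ex q ↔ 1472 ≤ q := by
  constructor
  · rintro ⟨-, h⟩
    by_contra hq
    push Not at hq
    exact trunc_not_convex hq (h q le_rfl)
  · intro hq
    refine ⟨?_, fun r hr => trunc_convex_of_hessPos ex_contDiff
      fun x hx => superlevel ((hq.trans hr).trans_lt hx)⟩
    refine (iInf_le _ (0 : E 2)).trans ?_
    have : ex 0 = 0 := by simp [ex, G]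
    rw [this]
    exact_mod_cast (by linarith : (0:ℝ) ≤ q)

lemma Q_gt {s : ℝ} (hs : 1 ≤ s) : 144 < Q s := by
  unfold Q
  have h1 : 0 < 3 * s ^ 2 - 25 * s + 54 := by nlinarith [sq_nonneg (s - 25 / 6)]
  have h2 : 4 < s * (3 * s ^ 2 - 25 * s + 54) := by
    rcases le_total s (21 / 10) with h | h
    · have : 4 < 3 * s ^ 2 - 25 * s + 54 := by nlinarith
      nlinarith
    · have : 23 / 12 ≤ 3 * s ^ 2 - 25 * s + 54 := by nlinarith [sq_nonneg (s - 25 / 6)]
      nlinarith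
  nlinarith

lemma Q'_pos {s : ℝ} (hs : s ≤ 1) : 0 < Q' s := by unfold Q'; nlinarith

lemma crit_iff (x : E 2) : x ∈ Crit ex ↔ x 1 = 0 ∧ (x 0 = 0 ∨ Q (‖x‖ ^ 2) = 144) := by
  have hQ : 0 < Q (‖x‖ ^ 2) := Q_pos (by positivity)
  show gradient ex x = 0 ↔ _
  rw [ex_gradient]
  constructor
  · intro h
    have h0 := congrArg (fun y : E 2 => y 0) h
    have h1 := congrArg (fun y : E 2 => y 1) h
    simp at h0 h1
    have h1' : x 1 = 0 := by
      rcases h1 with h1 | h1
      · exact absurd h1 hQ.ne'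
      · exact h1
    refine ⟨h1', ?_⟩
    by_cases hx0 : x 0 = 0
    · left; exact hx0
    · right
      have : (2 * Q (‖x‖ ^ 2) - 288) * x 0 = 0 := by linarith
      rcases mul_eq_zero.mp this with h | h
      · linarith
      · exact absurd h hx0
  · rintro ⟨h1, h0⟩
    ext i
    fin_cases i
    · simp
      rcases h0 with h0 | h0
      · rw [h0]; ring
      · rw [h0]; ring
    · simp [h1]

lemma crit_small {x : E 2} (hx : x ∈ Crit ex) : ‖x‖ ^ 2 < 1 := by
  rw [crit_iff] at hx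
  obtain ⟨h1, h0⟩ := hx
  rcases h0 with h0 | h0
  · rw [nsq, h0, h1]; norm_num
  · by_contra h
    push Not at h
    have := Q_gt h
    linarith

lemma ex_hyp : Hyp ex 1472 where
  contDiff := ex_contDiff
  not_convex := by
    intro h
    apply trunc_not_convex (r := 0) (by norm_num)
    exact (convexOn_const 0 convex_univ).sup h
  truncatedConvex := ⟨1472, (good_iff 1472).mpr le_rfl⟩
  morse := by
    intro x hx v hv
    have hs := crit_small hx
    rw [crit_iff] at hx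
    obtain ⟨h1, h0⟩ := hx
    have hQ : 0 < Q (‖x‖ ^ 2) := Q_pos (by positivity)
    have e0 := hv (EuclideanSpace.single 0 1)
    have e1 := hv (EuclideanSpace.single 1 1)
    rw [ex_hess, inn, inn, inn] at e0 e1
    simp [h1] at e0 e1
    have hv1 : v 1 = 0 := by
      rcases e1 with h | h
      · exact absurd h hQ.ne'
      · exact h
    have hv0 : v 0 = 0 := by
      rcases h0 with h0 | h0
      · have hs0 : ‖x‖ ^ 2 = 0 := by rw [nsq, h0, h1]; norm_num
        rw [hs0, h0] at e0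
        have : Q 0 = 96 := by unfold Q; norm_num
        rw [this] at e0
        linarith
      · rw [h0] at e0
        have hq := Q'_pos hs.le
        by_cases hx0 : x 0 = 0
        · exfalso
          have hs0 : ‖x‖ ^ 2 = 0 := by rw [nsq, hx0, h1]; norm_num
          rw [hs0] at h0
          have : Q 0 = 96 := by unfold Q; norm_num
          linarith
        · have hx2 : 0 < (x 0) ^ 2 := by positivity
          have : 4 * Q' (‖x‖ ^ 2) * (x 0) ^ 2 * v 0 = 0 := by linarith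
          rcases mul_eq_zero.mp this with h | h
          · exfalso
            have : 0 < 4 * Q' (‖x‖ ^ 2) * (x 0) ^ 2 := by positivity
            linarith
          · exact h
    by_contra hv
    rcases (ne_zero_iff v).mp hv with h | h
    · exact h hv0
    · exact h hv1
  crit_bdd := by
    refine (Metric.isBounded_closedBall (x := (0 : E 2)) (r := 1)).subset ?_
    intro x hx
    have := crit_small hx
    rw [Metric.mem_closedBall, dist_zero_right]
    nlinarith [norm_nonneg x]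
  hess_bdd := by
    refine (Metric.isBounded_closedBall (x := (0 : E 2)) (r := 3)).subset ?_
    intro x hx
    rw [Metric.mem_closedBall, dist_zero_right]
    by_contra h
    push Not at h
    exact hx (pos_large (by nlinarith [norm_nonneg x]))
  scl_eq := by
    unfold scl
    apply le_antisymm
    · exact sInf_le ⟨1472, (good_iff 1472).mpr le_rfl, rfl⟩
    · apply le_sInf
      rintro _ ⟨q, hq, rfl⟩
      exact EReal.coe_le_coe_iff.mpr ((good_iff q).mp hq)
  scl_mem := by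
    refine ⟨(2:ℝ) • EuclideanSpace.single (1 : Fin 2) (1 : ℝ), ?_⟩
    rw [ex_axis]; unfold G; norm_num
  scl_regular := by
    intro x hx hg
    have hs := crit_small hg
    have h1 := G_le (s := ‖x‖ ^ 2) (by positivity) (by linarith)
    have h2 : G (‖x‖ ^ 2) - 144 * (x 0) ^ 2 = 1472 := hx
    nlinarith [sq_nonneg (x 0)]
  superlevel := fun x hx => superlevel hx

/-- **MP_5c9c6a_an, Q1 (negative answer).** There are a function `f : ℝ² → ℝ` satisfying the
standing hypotheses (H), with `c = scl(f)`, and a point `x` of `R(f)` such that `∇f` is not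
injective on the connected component of `R(f)` containing `x`. -/
theorem result : ∃ (f : E 2 → ℝ) (c : ℝ), Hyp f c ∧
    ∃ x ∈ R f c, ¬ InjOn (gradient f) (connectedComponentIn (R f c) x) := by
  -- the radius of the minima
  have hQc : Continuous Q := by unfold Q; fun_prop
  obtain ⟨t, ht, htQ⟩ := intermediate_value_Icc (show (0:ℝ) ≤ 1 by norm_num)
    hQc.continuousOn (show (144 : ℝ) ∈ Icc _ _ by unfold Q; constructor <;> norm_num)
  have ht0 : 0 < t := by
    rcases ht.1.lt_or_eq with h | h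
    · exact h
    · exfalso
      rw [← h] at htQ
      unfold Q at htQ; norm_num at htQ
  have hsq : 0 < Real.sqrt t := Real.sqrt_pos.mpr ht0
  have hsq2 : Real.sqrt t ^ 2 = t := Real.sq_sqrt ht0.le
  have hQmono : ∀ a b : ℝ, 0 ≤ a → a ≤ b → b ≤ 1 → Q a ≤ Q b := by
    intro a b ha hab hb
    have e : Q b - Q a = (b - a) * (36 * (b ^ 2 + b * a + a ^ 2) - 300 * (b + a) + 648) := by
      unfold Q; ring
    have h1 : 0 ≤ 36 * (b ^ 2 + b * a + a ^ 2) - 300 * (b + a) + 648 := by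
      have : 0 ≤ b ^ 2 + b * a + a ^ 2 := by
        have hb0 : 0 ≤ b := ha.trans hab
        positivity
      linarith
    have := mul_nonneg (sub_nonneg.mpr hab) h1
    linarith
  -- the path
  set γ : ℝ → E 2 := fun θ => !₂[Real.sqrt t * Real.cos θ, Real.sin θ] with hγ
  have hγc : Continuous γ := by
    rw [hγ]
    fun_prop
  have hγ0 : ∀ θ, γ θ 0 = Real.sqrt t * Real.cos θ := fun θ => by simp [hγ]
  have hγ1 : ∀ θ, γ θ 1 = Real.sin θ := fun θ => by simp [hγ]
  have hns : ∀ θ, ‖γ θ‖ ^ 2 = t + (1 - t) * Real.sin θ ^ 2 := by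
    intro θ
    rw [nsq, hγ0, hγ1, mul_pow, hsq2, Real.cos_sq']
    ring
  have hmem : ∀ θ, γ θ ∈ R ex 1472 := by
    intro θ
    have hs1 : 0 ≤ Real.sin θ ^ 2 := sq_nonneg _
    have hs2 : Real.sin θ ^ 2 ≤ 1 := Real.sin_sq_le_one θ
    have hlow : t ≤ ‖γ θ‖ ^ 2 := by
      rw [hns]
      have := mul_nonneg (sub_nonneg.mpr ht.2) hs1
      linarith
    have hup : ‖γ θ‖ ^ 2 ≤ 1 := by
      rw [hns]
      have := mul_le_mul_of_nonneg_left hs2 (sub_nonneg.mpr ht.2)
      linarith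
    refine ⟨?_, ?_⟩
    · apply pos_of
      · rw [← htQ]; exact hQmono t _ ht0.le hlow hup
      · exact Q'_pos hup
      · by_cases hc : Real.cos θ = 0
        · right
          have : Real.sin θ ^ 2 = 1 := by
            have := Real.sin_sq_add_cos_sq θ
            rw [hc] at this
            linarith
          rw [hns, this]
          have e : t + (1 - t) * 1 = 1 := by ring
          rw [e]
          exact Q_gt le_rfl
        · left
          rw [hγ0]
          exact mul_ne_zero hsq.ne' hc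
    · show ¬ (1472 < ex (γ θ))
      have h1 := G_le (s := ‖γ θ‖ ^ 2) (by positivity) (by linarith)
      have h2 : ex (γ θ) = G (‖γ θ‖ ^ 2) - 144 * (γ θ 0) ^ 2 := rfl
      rw [h2]
      nlinarith [sq_nonneg (γ θ 0)]
  have hcrit : ∀ θ, Real.sin θ = 0 → gradient ex (γ θ) = 0 := by
    intro θ hθ
    have : γ θ ∈ Crit ex := by
      rw [crit_iff]
      refine ⟨by rw [hγ1, hθ], Or.inr ?_⟩
      rw [hns, hθ]
      simpa using htQ
    exact this
  refine ⟨ex, 1472, ex_hyp, γ 0, hmem 0, ?_⟩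
  intro hinj
  have hpre : IsPreconnected (γ '' Icc 0 Real.pi) :=
    isPreconnected_Icc.image γ hγc.continuousOn
  have hsub : γ '' Icc 0 Real.pi ⊆ connectedComponentIn (R ex 1472) (γ 0) :=
    hpre.subset_connectedComponentIn ⟨0, ⟨le_rfl, Real.pi_pos.le⟩, rfl⟩
      (by rintro _ ⟨θ, -, rfl⟩; exact hmem θ)
  have hm0 : γ 0 ∈ connectedComponentIn (R ex 1472) (γ 0) :=
    hsub ⟨0, ⟨le_rfl, Real.pi_pos.le⟩, rfl⟩
  have hm1 : γ Real.pi ∈ connectedComponentIn (R ex 1472) (γ 0) :=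
    hsub ⟨Real.pi, ⟨Real.pi_pos.le, le_rfl⟩, rfl⟩
  have heq := hinj hm0 hm1 (by rw [hcrit 0 Real.sin_zero, hcrit Real.pi Real.sin_pi])
  have h0 := congrArg (fun y : E 2 => y 0) heq
  simp only [hγ0, Real.cos_zero, Real.cos_pi] at h0
  linarith

end Pool.Agent.Results.MP_5c9c6a_an.GradInj
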